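import Mathlib

set_option autoImplicit false

/-!
# Every graph is the graph of p-conjugacy of a semigroup all of whose variants are null

For a graph with vertex set `V` take the semigroup with zero on `{0} ∪ V ∪ D`, where `D` is the set
of the oriented edges, in which the product of the oriented edges `(x,y)` and `(y,x)` is the vertex
`x` and all other products are `0`.
-/

universe u

namespace Pool.Agent.Results.MP_9df05e_al.EveryGraph

/-- Primary conjugacy (`p`-conjugacy) on a semigroup `T`: `a ∼ₚ b` if `a = u v` and `b = v u` for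
some `u, v ∈ T¹`, where `T¹` is `T` with an identity element adjoined (if `T` already has an
identity, using `T¹ = T` instead gives the same relation, see `pconj_iff`). -/
def PConj {T : Type u} [Semigroup T] (a b : T) : Prop :=
  ∃ u v : WithOne T, (a : WithOne T) = u * v ∧ (b : WithOne T) = v * u

/-- `a ∼ₚ b` if and only if `a = b`, or `a = u v` and `b = v u` with `u, v ∈ T`. -/
lemma pconj_iff {T : Type u} [Semigroup T] (a b : T) :
    PConj a b ↔ a = b ∨ ∃ u v : T, a = u * v ∧ b = v * u := by
  constructor
  · rintro ⟨u, v, h1, h2⟩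
    induction u using WithOne.recOneCoe with
    | one => left; rw [one_mul] at h1; rw [mul_one] at h2; exact WithOne.coe_inj.1 (h1.trans h2.symm)
    | coe u =>
      induction v using WithOne.recOneCoe with
      | one => left; rw [mul_one] at h1; rw [one_mul] at h2; exact WithOne.coe_inj.1 (h1.trans h2.symm)
      | coe v =>
        right
        refine ⟨u, v, ?_, ?_⟩
        · exact_mod_cast h1
        · exact_mod_cast h2
  · rintro (rfl | ⟨u, v, h1, h2⟩)
    · exact ⟨1, a, by simp, by simp⟩
    · exact ⟨u, v, by rw [h1]; rfl, by rw [h2]; rfl⟩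

/-- The variant of the semigroup `S` at `a`: the set `S` with the product `x ∘ y = x a y`. -/
def Variant (S : Type u) [Semigroup S] (_a : S) : Type u := S

instance (S : Type u) [Semigroup S] (a : S) : Semigroup (Variant S a) where
  mul := fun x y : S => x * a * y
  mul_assoc := by
    intro (x : S) (y : S) (z : S)
    change (x * a * y) * a * z = x * a * (y * a * z)
    simp only [mul_assoc]

/-- There is a chain of `m` steps of p-conjugacy from `a` to `b`. -/
def Chain {S : Type u} [Semigroup S] (m : ℕ) (a b : S) : Prop :=
  ∃ d : ℕ → S, d 0 = a ∧ d m = b ∧ ∀ i < m, PConj (d i) (d (i + 1))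

section

variable {V : Type u} (G : SimpleGraph V)

/-- The underlying set: zero, the vertices and the oriented edges. -/
def T : Type u := Option (V ⊕ G.Dart)

variable {G}

/-- the zero -/
def zr : T G := none

/-- a vertex -/
def vt (x : V) : T G := some (Sum.inl x)

open Classical in
/-- the product -/
noncomputable def mulT : T G → T G → T G
  | some (Sum.inr d), some (Sum.inr d') => if d' = d.symm then vt d.fst else zr
  | _, _ => zr

lemma mulT_ne (a b : T G) (h : mulT a b ≠ zr) :
    ∃ d : G.Dart, a = some (Sum.inr d) ∧ b = some (Sum.inr d.symm) ∧ mulT a b = vt d.fst := by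
  match a, b with
  | some (Sum.inr d), some (Sum.inr d') =>
    by_cases hd : d' = d.symm
    · subst hd
      exact ⟨d, rfl, rfl, by simp [mulT]⟩
    · exact absurd (by simp [mulT, hd]) h
  | none, _ => exact absurd rfl h
  | some (Sum.inl _), _ => exact absurd rfl h
  | some (Sum.inr _), none => exact absurd rfl h
  | some (Sum.inr _), some (Sum.inl _) => exact absurd rfl h

lemma mulT_dart (d : G.Dart) :
    mulT (some (Sum.inr d) : T G) (some (Sum.inr d.symm)) = vt d.fst := by
  simp [mulT]

lemma mulT_left (a b c : T G) : mulT (mulT a b) c = zr := by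
  by_contra h
  obtain ⟨d, h1, -, -⟩ := mulT_ne _ _ h
  have h2 : mulT a b ≠ zr := by rw [h1]; intro h; cases h
  obtain ⟨d', -, -, h3⟩ := mulT_ne _ _ h2
  rw [h1] at h3
  cases h3

lemma mulT_right (a b c : T G) : mulT a (mulT b c) = zr := by
  by_contra h
  obtain ⟨d, -, h1, -⟩ := mulT_ne _ _ h
  have h2 : mulT b c ≠ zr := by rw [h1]; intro h; cases h
  obtain ⟨d', -, -, h3⟩ := mulT_ne _ _ h2
  rw [h1] at h3
  cases h3

noncomputable instance : Semigroup (T G) where
  mul := mulT
  mul_assoc := fun a b c => by
    change mulT (mulT a b) c = mulT a (mulT b c)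
    rw [mulT_left, mulT_right]

lemma mul_three (a b c : T G) : a * b * c = zr := mulT_left a b c

lemma vt_inj : Function.Injective (vt : V → T G) := by
  intro x y h
  have := Option.some.inj h
  exact Sum.inl.inj this

lemma pconj_T (a b : T G) :
    PConj a b ↔ a = b ∨ ∃ x y, G.Adj x y ∧ a = vt x ∧ b = vt y := by
  rw [pconj_iff]
  constructor
  · rintro (h | ⟨u, v, h1, h2⟩)
    · exact Or.inl h
    · by_cases h3 : mulT u v = zr
      · by_cases h4 : mulT v u = zr
        · left
          rw [h1, h2]
          exact h3.trans h4.symm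
        · exfalso
          obtain ⟨d, h5, h6, -⟩ := mulT_ne _ _ h4
          apply absurd h3
          rw [h5, h6]
          have := mulT_dart d.symm
          rw [SimpleGraph.Dart.symm_symm] at this
          rw [this]
          intro h; cases h
      · right
        obtain ⟨d, h5, h6, h7⟩ := mulT_ne _ _ h3
        refine ⟨d.fst, d.snd, d.adj, h1.trans h7, h2.trans ?_⟩
        have := mulT_dart d.symm
        rw [SimpleGraph.Dart.symm_symm] at this
        change mulT v u = _
        rw [h5, h6, this]
        rfl
  · rintro (h | ⟨x, y, h, rfl, rfl⟩)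
    · exact Or.inl h
    · right
      let d : G.Dart := ⟨(x, y), h⟩
      refine ⟨some (Sum.inr d), some (Sum.inr d.symm), (mulT_dart d).symm, ?_⟩
      have := mulT_dart d.symm
      rw [SimpleGraph.Dart.symm_symm] at this
      exact this.symm

end

lemma variant_eq (V : Type u) (G : SimpleGraph V) (a : T G) (p q : Variant (T G) a) :
    PConj p q ↔ p = q := by
  rw [pconj_iff]
  constructor
  · rintro (h | ⟨u, v, h1, h2⟩)
    · exact h
    · have e1 : p = (zr : T G) := h1.trans (mul_three (G := G) u a v)
      have e2 : q = (zr : T G) := h2.trans (mul_three (G := G) v a u)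
      exact e1.trans e2.symm
  · exact Or.inl

lemma chain_bound {V : Type u} {G : SimpleGraph V} (ρ : V → ℕ)
    (hρ : ∀ x y, G.Adj x y → ρ y ≤ ρ x + 1) (m : ℕ) (x : V) (b : T G) (h : Chain m (vt x) b) :
    ∃ y, b = vt y ∧ ρ y ≤ ρ x + m := by
  obtain ⟨d, h0, hm, hs⟩ := h
  have : ∀ i ≤ m, ∃ y, d i = vt y ∧ ρ y ≤ ρ x + i := by
    intro i
    induction i with
    | zero => intro _; exact ⟨x, h0, le_rfl⟩
    | succ i ih =>
      intro hi
      obtain ⟨y, h1, h2⟩ := ih (by omega)
      rcases (pconj_T _ _).1 (hs i (by omega)) with h3 | ⟨x', y', h3, h4, h5⟩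
      · exact ⟨y, by rw [← h3, h1], by omega⟩
      · refine ⟨y', h5, ?_⟩
        have h6 : y = x' := vt_inj (h1.symm.trans h4)
        have := hρ x' y' h3
        rw [← h6] at this
        omega
  obtain ⟨y, h1, h2⟩ := this m le_rfl
  exact ⟨y, by rw [← hm, h1], h2⟩

/-- the one-way infinite path -/
def ray : SimpleGraph ℕ where
  Adj i j := i + 1 = j ∨ j + 1 = i
  symm := ⟨fun _ _ h => h.symm⟩
  loopless := ⟨fun i h => by rcases h with h | h <;> omega⟩

/-- **Every graph is the graph of p-conjugacy of a semigroup all of whose variants are null.**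
(1) For every graph `G` on a set `V` there are a semigroup `S` (finite if `V` is finite) and an
injection `ι` of `V` into `S` such that all products of three elements of `S` are equal (so all
variants of `S` are null semigroups, and p-conjugacy is equality in each of them), and two
elements of `S` are p-conjugate if and only if they are equal or the images of two adjacent vertices
of `G`; so p-conjugacy is transitive in `S` if and only if adjacency-or-equality is transitive in
`G`. (2) Hence for every `n` there are a finite semigroup `S` in all of whose variants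
p-conjugacy is equality, and two elements of `S` which are connected by a chain of `n` steps of
p-conjugacy but by no shorter chain. (3) There is one semigroup, in all of whose variants
p-conjugacy is equality, with a sequence of elements `c 0, c 1, …` such that `c 0` and `c n` are
connected by a chain of `n` steps and by no shorter chain, for every `n`. -/
theorem result :
    (∀ (V : Type u) (G : SimpleGraph V), ∃ (S : Type u) (_ : Semigroup S) (z : S) (ι : V → S),
      Function.Injective ι ∧ (Finite V → Finite S) ∧ (∀ a b c : S, a * b * c = z) ∧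
      (∀ (a : S) (p q : Variant S a), PConj p q ↔ p = q) ∧
      (∀ a b : S, PConj a b ↔ a = b ∨ ∃ x y, G.Adj x y ∧ a = ι x ∧ b = ι y) ∧
      ((∀ a b c : S, PConj a b → PConj b c → PConj a c) ↔
        ∀ x y z : V, G.Adj x y → G.Adj y z → x = z ∨ G.Adj x z)) ∧
    (∀ n : ℕ, ∃ (S : Type) (_ : Semigroup S), Finite S ∧
      (∀ (a : S) (p q : Variant S a), PConj p q ↔ p = q) ∧
      ∃ a b : S, Chain n a b ∧ ∀ m < n, ¬ Chain m a b) ∧
    ∃ (S : Type) (_ : Semigroup S), (∀ (a : S) (p q : Variant S a), PConj p q ↔ p = q) ∧
      ∃ c : ℕ → S, ∀ n : ℕ, Chain n (c 0) (c n) ∧ ∀ m < n, ¬ Chain m (c 0) (c n) := by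
  refine ⟨?_, ?_, ?_⟩
  · intro V G
    refine ⟨T G, inferInstance, zr, vt, vt_inj, ?_, mul_three, variant_eq V G, pconj_T, ?_⟩
    · intro hV
      have : Finite G.Dart := Finite.of_injective (fun d : G.Dart => d.toProd)
        SimpleGraph.Dart.toProd_injective
      unfold T
      infer_instance
    · constructor
      · intro h x y z hxy hyz
        have h1 := h (vt x) (vt y) (vt z) ((pconj_T _ _).2 (Or.inr ⟨x, y, hxy, rfl, rfl⟩))
          ((pconj_T _ _).2 (Or.inr ⟨y, z, hyz, rfl, rfl⟩))
        rcases (pconj_T _ _).1 h1 with h1 | ⟨x', z', h2, h3, h4⟩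
        · exact Or.inl (vt_inj h1)
        · right
          rw [vt_inj h3, vt_inj h4]
          exact h2
      · intro h a b c hab hbc
        rcases (pconj_T _ _).1 hab with rfl | ⟨x, y, h1, rfl, rfl⟩
        · exact hbc
        · rcases (pconj_T _ _).1 hbc with h2 | ⟨y', z, h2, h3, rfl⟩
          · rw [← h2]; exact hab
          · have h4 := vt_inj h3
            subst h4
            rcases h x y z h1 h2 with h5 | h5
            · rw [h5]; exact (pconj_T _ _).2 (Or.inl rfl)
            · exact (pconj_T _ _).2 (Or.inr ⟨x, z, h5, rfl, rfl⟩)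
  · intro n
    refine ⟨T (SimpleGraph.pathGraph (n + 1)), inferInstance, ?_, variant_eq _ _, vt 0,
      vt (Fin.last n), ⟨fun i => vt (Fin.ofNat (n + 1) i), ?_, ?_, ?_⟩, ?_⟩
    · have : Finite (SimpleGraph.pathGraph (n + 1)).Dart :=
        Finite.of_injective (fun d : (SimpleGraph.pathGraph (n + 1)).Dart => d.toProd)
          SimpleGraph.Dart.toProd_injective
      unfold T
      infer_instance
    · rfl
    · have h1 : Fin.ofNat (n + 1) n = Fin.last n := by
        apply Fin.ext
        simp [Fin.ofNat]
      show vt (Fin.ofNat (n + 1) n) = vt (Fin.last n)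
      rw [h1]
    · intro i hi
      rw [pconj_T]
      right
      refine ⟨_, _, ?_, rfl, rfl⟩
      rw [SimpleGraph.pathGraph_adj]
      left
      have h1 : i % (n + 1) = i := Nat.mod_eq_of_lt (by omega)
      have h2 : (i + 1) % (n + 1) = i + 1 := Nat.mod_eq_of_lt (by omega)
      simp only [Fin.ofNat]
      rw [h1, h2]
    · intro m hm h
      obtain ⟨y, h1, h2⟩ := chain_bound (fun i : Fin (n + 1) => i.val) (by
        intro x y h
        rw [SimpleGraph.pathGraph_adj] at h
        omega) m 0 _ h
      have h3 := vt_inj h1
      rw [← h3] at h2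
      simp at h2
      omega
  · refine ⟨T ray, inferInstance, variant_eq _ _, fun i => vt i, fun n => ⟨⟨fun i => vt i, rfl, rfl,
      ?_⟩, ?_⟩⟩
    · intro i _
      rw [pconj_T]
      exact Or.inr ⟨i, i + 1, Or.inl rfl, rfl, rfl⟩
    · intro m hm h
      obtain ⟨y, h1, h2⟩ := chain_bound (fun i : ℕ => i) (by
        intro x y h
        rcases h with h | h <;> omega) m 0 _ h
      have h3 := vt_inj h1
      rw [← h3] at h2
      simp at h2
      omega

end Pool.Agent.Results.MP_9df05e_al.EveryGraph
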